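import Mathlib

/-!
# MP_8effdd_an: the chain mail set

Definitions for the disproof of S05371 (dimension 3).
-/

set_option autoImplicit false

open MeasureTheory Filter Topology
open scoped ENNReal

namespace Pool.Agent.Lib.MP_8effdd_an.CM

noncomputable section

/-- Euclidean three space. -/
abbrev E3 := EuclideanSpace ℝ (Fin 3)

/-- point with given coordinates -/
abbrev pt (v : Fin 3 → ℝ) : E3 := WithLp.toLp 2 v

/-- square radius in the plane of the coordinates `i`, `j` around `c` -/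
def rad (i j : Fin 3) (c : Fin 3 → ℝ) (x : E3) : ℝ := max |x i - c i| |x j - c j|

/-- gauge: sup distance like function to the square loop of radius `3s/4` around `c` in the plane
`i`, `j` -/
def gau (i j k : Fin 3) (c : Fin 3 → ℝ) (s : ℝ) (x : E3) : ℝ :=
  max |rad i j c x - 3 / 4 * s| |x k - c k|

/-- the square loop with parameters `t₁`, `t₂` -/
def lp (i j k : Fin 3) (c : Fin 3 → ℝ) (s t₁ t₂ : ℝ) : Set E3 :=
  {x | rad i j c x = 3 / 4 * s + t₁ ∧ x k = c k + t₂}

/-- index of a frame: direction, position in the row, position of the row -/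
structure Idx where
  d : Fin 3
  n : ℤ
  p : ℤ
  q : ℤ

/-- second coordinate of the plane of the frame -/
def Idx.j (ι : Idx) : Fin 3 := if Even ι.n then ι.d + 1 else ι.d + 2

/-- normal coordinate of the plane of the frame -/
def Idx.k (ι : Idx) : Fin 3 := if Even ι.n then ι.d + 2 else ι.d + 1

/-- center of the frame at scale `s` -/
def Idx.ctr (ι : Idx) (s : ℝ) : Fin 3 → ℝ :=
  fun m => if m = ι.d then s * ι.n else if m = ι.d + 1 then s * (4 * ι.p) else s * (4 * ι.q + 2)

/-- gauge of a frame -/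
def Idx.g (ι : Idx) (s : ℝ) (x : E3) : ℝ := gau ι.d ι.j ι.k (ι.ctr s) s x

/-- the frame at scale `s` with thickness parameter `η` -/
def Idx.fr (ι : Idx) (s η : ℝ) : Set E3 := {x | ι.g s x < η * s}

/-- the open chain mail at scale `s` -/
def mail (s : ℝ) : Set E3 := ⋃ ι : Idx, ι.fr s (1 / 8)

/-- the scales -/
def sc (k : ℕ) : ℝ := (1 / 1000 : ℝ) ^ k

/-- the closed set -/
def EE : Set E3 := (⋃ k : ℕ, mail (sc k))ᶜ

/-- metric quasiconformality (constant `H`) at the points of `T` -/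
def QCon (f : E3 ≃ₜ E3) (H : ℝ) (T : Set E3) : Prop :=
  ∀ x ∈ T, ∀ᶠ r in 𝓝[>] (0:ℝ), ∀ y z : E3,
    dist y x = r → dist z x = r → dist (f y) (f x) ≤ H * dist (f z) (f x)

/-- closed cube -/
def cube (x₀ : E3) (l : ℝ) : Set E3 := {x | ∀ m, |x m - x₀ m| ≤ l}

/-- closed tube around the segment from `a` of length `r` in direction `d` -/
def tube (d : Fin 3) (a : E3) (r s : ℝ) : Set E3 :=
  {z | (∀ m, m ≠ d → |z m - a m| ≤ 8 * s) ∧ a d - 8 * s ≤ z d ∧ z d ≤ a d + r + 8 * s}

/-- segment from `a` of length `r` in direction `d` -/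
def seg (d : Fin 3) (a : E3) (r : ℝ) : Set E3 :=
  {z | (∀ m, m ≠ d → z m = a m) ∧ a d ≤ z d ∧ z d ≤ a d + r}

/-- Row inequality for the map `f` with energy measure `ν`: on every bounded region, with error
`ε`, at arbitrarily small scales. -/
def RowIneq (f : E3 → E3) (ν : Measure E3) (C : ℝ) : Prop :=
  ∀ R : ℝ, ∀ ε > 0, ∀ δ > 0, ∃ s, 0 < s ∧ s < δ ∧ ∀ (d : Fin 3) (a : E3) (r : ℝ), s ≤ r →
    seg d a r ⊆ Metric.closedBall 0 R → ∀ x ∈ seg d a r, ∀ y ∈ seg d a r,
      dist (f x) (f y) ≤ C * ((r / s) ^ 2 * (ν (tube d a r s)).toReal) ^ (1 / 3 : ℝ) + ε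

end

end Pool.Agent.Lib.MP_8effdd_an.CM
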