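import Mathlib
import Pool.Agent.Lib.MP_8effdd_an.CM.Defs

set_option autoImplicit false

open MeasureTheory Filter Topology Metric Set
open scoped ENNReal

namespace Pool.Agent.Lib.MP_8effdd_an.CM

/-- center of the second cube -/
def far : E3 := pt ![20, 0, 0]

theorem cube_closed (x : E3) (l : ℝ) : IsClosed (cube x l) := by
  have : cube x l = ⋂ m : Fin 3, {y : E3 | |y m - x m| ≤ l} := by
    ext y; simp [cube]
  rw [this]
  refine isClosed_iInter fun m => isClosed_le ?_ continuous_const
  fun_prop

theorem cube_compact (x : E3) (l : ℝ) : IsCompact (cube x l) := by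
  rcases le_or_gt 0 l with hl | hl
  · refine (isCompact_closedBall x (2 * l)).of_isClosed_subset (cube_closed x l) ?_
    intro y hy
    rw [mem_closedBall, EuclideanSpace.dist_eq]
    apply Real.sqrt_le_iff.mpr
    refine ⟨by positivity, ?_⟩
    have h : ∀ i, dist (y i) (x i) ^ 2 ≤ l ^ 2 := by
      intro i
      rw [Real.dist_eq]
      exact pow_le_pow_left₀ (abs_nonneg _) (hy i) 2
    calc ∑ i, dist (y i) (x i) ^ 2 ≤ ∑ _i : Fin 3, l ^ 2 := Finset.sum_le_sum fun i _ => h i
      _ = 3 * l ^ 2 := by simp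
      _ ≤ (2 * l) ^ 2 := by nlinarith [sq_nonneg l]
  · have : cube x l = ∅ := by
      ext y
      simp only [cube, mem_ofPred_eq, mem_empty_iff_false, iff_false, not_forall, not_le]
      exact ⟨0, lt_of_lt_of_le hl (abs_nonneg _)⟩
    rw [this]
    exact isCompact_empty

theorem cube_connected (x : E3) {l : ℝ} (hl : 0 ≤ l) : IsConnected (cube x l) := by
  have hconv : Convex ℝ (cube x l) := by
    intro y hy z hz a b ha hb hab m
    have h1 := hy m
    have h2 := hz m
    have e : (a • y + b • z) m - x m = a * (y m - x m) + b * (z m - x m) := by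
      simp only [PiLp.add_apply, PiLp.smul_apply, smul_eq_mul]
      linear_combination (x m) * hab
    rw [e]
    calc |a * (y m - x m) + b * (z m - x m)| ≤ |a * (y m - x m)| + |b * (z m - x m)| := abs_add_le _ _
      _ = a * |y m - x m| + b * |z m - x m| := by rw [abs_mul, abs_mul, abs_of_nonneg ha, abs_of_nonneg hb]
      _ ≤ a * l + b * l := by gcongr
      _ = l := by rw [← add_mul, hab, one_mul]
  exact ⟨⟨x, fun m => by simpa using hl⟩, hconv.isPreconnected⟩

theorem cubes_far {x y : E3} (hx : x ∈ cube 0 1) (hy : y ∈ cube far 1) : 10 ≤ dist x y := by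
  have h1 := hx 0
  have h2 := hy 0
  have h3 : far 0 = 20 := by simp [far, pt]
  rw [h3] at h2
  have h4 : |x 0 - y 0| ≤ dist x y := by
    rw [EuclideanSpace.dist_eq]
    have h : dist (x 0) (y 0) ^ 2 ≤ ∑ i, dist (x i) (y i) ^ 2 :=
      Finset.single_le_sum (f := fun i => dist (x i) (y i) ^ 2) (fun i _ => sq_nonneg _)
        (Finset.mem_univ 0)
    calc |x 0 - y 0| = √(dist (x 0) (y 0) ^ 2) := by
          rw [Real.sqrt_sq dist_nonneg, Real.dist_eq]
      _ ≤ _ := Real.sqrt_le_sqrt h
  simp only [PiLp.zero_apply, sub_zero] at h1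
  rw [abs_le] at h1 h2
  have h5 : 18 ≤ |x 0 - y 0| := by
    rw [abs_sub_comm]
    exact le_trans (by linarith) (le_abs_self _)
  linarith

end Pool.Agent.Lib.MP_8effdd_an.CM
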