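import Mathlib
import Pool.Agent.Lib.MP_8effdd_an.Mg.G004

set_option autoImplicit false
open MeasureTheory Filter Topology
open scoped ENNReal

namespace Pool.Agent.Lib.MP_8effdd_an.CM

theorem final :
    ¬ (∀ n : ℕ, 2 ≤ n → ∀ E : Set (EuclideanSpace ℝ (Fin n)), IsClosed E →
      (∃ F₁ F₂ : Set (EuclideanSpace ℝ (Fin n)),
        IsCompact F₁ ∧ IsConnected F₁ ∧ IsCompact F₂ ∧ IsConnected F₂ ∧ Disjoint F₁ F₂ ∧
        (⨅ (ρ : EuclideanSpace ℝ (Fin n) → ℝ≥0∞) (_ : Measurable ρ)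
            (_ : ∀ γ : ℝ → EuclideanSpace ℝ (Fin n), ContinuousOn γ (Set.Icc 0 1) →
              γ 0 ∈ F₁ → γ 1 ∈ F₂ → eVariationOn γ (Set.Icc 0 1) ≠ ⊤ →
              ∀ h : Monotone (fun t : ℝ => (eVariationOn γ (Set.Icc 0 (max 0 (min t 1)))).toReal),
                1 ≤ ∫⁻ t in Set.Icc (0:ℝ) 1, ρ (γ t) ∂h.stieltjesFunction.measure),
            ∫⁻ x, ρ x ^ n) ≠
        (⨅ (ρ : EuclideanSpace ℝ (Fin n) → ℝ≥0∞) (_ : Measurable ρ)
            (_ : ∀ γ : ℝ → EuclideanSpace ℝ (Fin n), ContinuousOn γ (Set.Icc 0 1) →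
              γ 0 ∈ F₁ → γ 1 ∈ F₂ → (γ '' Set.Icc 0 1 ∩ E).Countable →
              eVariationOn γ (Set.Icc 0 1) ≠ ⊤ →
              ∀ h : Monotone (fun t : ℝ => (eVariationOn γ (Set.Icc 0 (max 0 (min t 1)))).toReal),
                1 ≤ ∫⁻ t in Set.Icc (0:ℝ) 1, ρ (γ t) ∂h.stieltjesFunction.measure),
            ∫⁻ x, ρ x ^ n)) →
      ∃ f : EuclideanSpace ℝ (Fin n) ≃ₜ EuclideanSpace ℝ (Fin n),
        (∃ H : ℝ, ∀ x, x ∉ E → ∀ᶠ r in 𝓝[>] (0:ℝ), ∀ y z : EuclideanSpace ℝ (Fin n),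
          dist y x = r → dist z x = r → dist (f y) (f x) ≤ H * dist (f z) (f x)) ∧
        volume (f '' E) ≠ 0) := by
  intro hall
  have hdis : Disjoint (cube 0 1) (cube far 1) := by
    rw [Set.disjoint_left]
    intro x h1 h2
    have := cubes_far h1 h2
    rw [dist_self] at this
    linarith
  obtain ⟨f, ⟨H, hH⟩, hv⟩ := hall 3 (by norm_num) EE EE_closed
    ⟨cube 0 1, cube far 1, cube_compact _ _, cube_connected _ zero_le_one, cube_compact _ _,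
      cube_connected _ zero_le_one, hdis, by rw [not_cned]; exact mod_pos⟩
  exact hv (image_null f (H := H) hH)

end Pool.Agent.Lib.MP_8effdd_an.CM
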